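import Pool.Agent.Y949.FC.Main

/-!
# Ratios of face contents for arbitrary families of faces

Let `P` be a convex polytope of any dimension `d` and let `𝓕` be any family of `i`-dimensional
faces of `P`.  Let `V_i(𝓕)` be the sum of the `i`-dimensional volumes of the members of `𝓕`, and let
`V_j(𝓕)` be the sum of the `j`-dimensional volumes of those `j`-dimensional faces of `P` which are
faces of some member of `𝓕`.  Then `V_i(𝓕)^(1/i) ≤ C(i,j) V_j(𝓕)^(1/j)` for `1 ≤ j ≤ i`, with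

  `C(i,j) = ∏_{k=j}^{i-1} (2 (k+1) (k+2)^2)^(1/k)`.

The case where `𝓕` consists of all `i`-faces says that `c(d,i,j) ≤ C(i,j)` for all `d`.
-/

set_option autoImplicit false

namespace Pool.Agent.Results.MP_c4c3e2_gt.FaceFamilies

open Pool.Agent.Helper733
open MeasureTheory

/-- the explicit constant `C(i,j) = ∏_{j ≤ k < i} (2 (k+1) (k+2)^2)^(1/k)` -/
noncomputable def C (i j : ℕ) : ℝ :=
  ∏ k ∈ Finset.Ico j i, (2 * ((k : ℝ) + 1) * ((k : ℝ) + 2) ^ 2) ^ ((1 : ℝ) / (k : ℝ))

theorem chainC_eq (j t : ℕ) : Chain.chainC j t = ENNReal.ofReal (C (j + t) j) := by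
  induction t with
  | zero => simp [Chain.chainC, C]
  | succ t ih =>
    have h1 : C (j + (t + 1)) j = C (j + t) j *
        (2 * (((j + t : ℕ) : ℝ) + 1) * (((j + t : ℕ) : ℝ) + 2) ^ 2) ^
          ((1 : ℝ) / ((j + t : ℕ) : ℝ)) := by
      unfold C
      rw [← add_assoc, Finset.prod_Ico_succ_top (Nat.le_add_right j t)]
    have h2 : 0 ≤ C (j + t) j := Finset.prod_nonneg fun k _ => by positivity
    rw [h1, ENNReal.ofReal_mul h2, ← ih, mul_comm]
    show Chain.stepC (j + t) * Chain.chainC j t = _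
    congr 1
    unfold Chain.stepC
    rw [one_div, ENNReal.ofReal_rpow_of_nonneg (by positivity) (by positivity)]
    congr 2
    push_cast
    ring

/-- **Face contents of arbitrary families of faces.** For all `1 ≤ j ≤ i`, all `d`, all
`d`-polytopes `P` and all families `𝓕` of `i`-faces of `P`: the `i`-th root of the total
`i`-dimensional volume of `𝓕` is at most `C(i,j)` times the `j`-th root of the total `j`-dimensional
volume of the `j`-faces of `P` contained in a member of `𝓕`. In particular (second part)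
`c(d,i,j) ≤ C(i,j) < ∞` for all `1 ≤ j ≤ i` and all `d`. -/
theorem result :
    (∀ i j : ℕ, 1 ≤ j → j ≤ i → ∀ (d : ℕ) (P : Set (EuclideanSpace ℝ (Fin d))), IsPolytope d P →
      ∀ 𝓕 : Set (Set (EuclideanSpace ℝ (Fin d))), (∀ F ∈ 𝓕, IsFace i P F) →
        (∑' F : 𝓕, μHE[i] F.1) ^ ((1 : ℝ) / i) ≤ ENNReal.ofReal (C i j) *
          (∑' G : {G : Set (EuclideanSpace ℝ (Fin d)) // IsFace j P G ∧ ∃ F ∈ 𝓕, G ⊆ F},
            μHE[j] G.1) ^ ((1 : ℝ) / j)) ∧
    ∀ i j : ℕ, 1 ≤ j → j ≤ i → ∀ d : ℕ, ratioSup d i j ≤ ENNReal.ofReal (C i j) := by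
  refine ⟨?_, ?_⟩
  · intro i j hj hji d P hP 𝓕 h𝓕
    obtain ⟨t, rfl⟩ := Nat.exists_eq_add_of_le hji
    have h := Pool.Agent.Y949.FC.chain P hP j hj t 𝓕 h𝓕
    rw [chainC_eq] at h
    exact h
  · intro i j hj hji d
    obtain ⟨t, rfl⟩ := Nat.exists_eq_add_of_le hji
    have h := Chain.ratioSup_le d (j + t) j hj hji
    rw [Nat.add_sub_cancel_left, chainC_eq] at h
    exact h

end Pool.Agent.Results.MP_c4c3e2_gt.FaceFamilies
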